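import Mathlib

set_option autoImplicit false

namespace Pool.Agent.Results.MP_82bed6_co.NoEmbedding

universe u v

/-- `M` is a Hadamard difference set of order `2 ^ (2 * b - 2)` in the abelian group `G`
(written additively) of order `2 ^ (2 * b)`: it has `2 ^ (2 * b - 1) - 2 ^ (b - 1)` elements and
every nonzero `g` has exactly `2 ^ (2 * b - 2) - 2 ^ (b - 1)` representations `g = m - m'`. -/
def IsHadamardDifferenceSet (b : ℕ) {G : Type} [AddCommGroup G] (M : Set G) : Prop :=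
  Nat.card G = 2 ^ (2 * b) ∧ Nat.card M = 2 ^ (2 * b - 1) - 2 ^ (b - 1) ∧
    ∀ g : G, g ≠ 0 →
      Nat.card {p : G × G // p.1 ∈ M ∧ p.2 ∈ M ∧ g = p.1 - p.2} = 2 ^ (2 * b - 2) - 2 ^ (b - 1)

/-- The translate `M + g`. -/
def translate {G : Type} [AddCommGroup G] (M : Set G) (g : G) : Set G :=
  {x | ∃ m ∈ M, x = m + g}

/-- `A` is a nonempty set of points that meets every line in either `0` or `d` points. -/
def IsMaximalArc {P : Type u} (L : Type v) [Membership P L] (d : ℕ) (A : Set P) : Prop :=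
  A.Nonempty ∧ ∀ l : L, (A ∩ {p | p ∈ l}).encard = 0 ∨ (A ∩ {p | p ∈ l}).encard = (d : ℕ∞)

/-- The development of `M` embeds as a set of maximal arcs of degree `2 ^ (b - 1)`. -/
def Embeds (b : ℕ) {G : Type} [AddCommGroup G] (M : Set G) (P : Type u) (L : Type v)
    [Membership P L] : Prop :=
  ∃ φ : G → P, Function.Injective φ ∧
    ∀ g : G, IsMaximalArc L (2 ^ (b - 1)) (φ '' translate M g)

/-- The difference set, as a finset. -/
def MF : Finset (ZMod 2 × ZMod 8) := {(0, 0), (0, 1), (0, 2), (0, 4), (1, 1), (1, 6)}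

/-- The difference set `{(0,0), (0,1), (0,2), (0,4), (1,1), (1,6)}` in `Z_2 × Z_8`. -/
def M28 : Set (ZMod 2 × ZMod 8) := {(0, 0), (0, 1), (0, 2), (0, 4), (1, 1), (1, 6)}

lemma M28_eq : M28 = (MF : Set (ZMod 2 × ZMod 8)) := by
  simp [M28, MF]

lemma card_pairs : ∀ g : ZMod 2 × ZMod 8, g ≠ 0 →
    ((MF ×ˢ MF).filter (fun p => g = p.1 - p.2)).card = 2 := by
  decide +kernel

lemma isHDS : IsHadamardDifferenceSet 2 M28 := by
  refine ⟨?_, ?_, ?_⟩
  · simp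
  · rw [M28_eq]
    simp [MF]
    decide +kernel
  · intro g hg
    have h1 : {p : (ZMod 2 × ZMod 8) × (ZMod 2 × ZMod 8) | p.1 ∈ M28 ∧ p.2 ∈ M28 ∧ g = p.1 - p.2}
        = (((MF ×ˢ MF).filter (fun p => g = p.1 - p.2) :
          Finset ((ZMod 2 × ZMod 8) × (ZMod 2 × ZMod 8))) : Set _) := by
      ext p
      simp [M28_eq, and_assoc]
    have h2 : Nat.card {p : (ZMod 2 × ZMod 8) × (ZMod 2 × ZMod 8) //
        p.1 ∈ M28 ∧ p.2 ∈ M28 ∧ g = p.1 - p.2} = Set.ncard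
        {p : (ZMod 2 × ZMod 8) × (ZMod 2 × ZMod 8) | p.1 ∈ M28 ∧ p.2 ∈ M28 ∧ g = p.1 - p.2} := rfl
    rw [h2, h1, Set.ncard_coe_finset, card_pairs g hg]
    norm_num

/-- number of points of `S` in the translate `MF + g`. -/
def cnt (S : Finset (ZMod 2 × ZMod 8)) (g : ZMod 2 × ZMod 8) : ℕ :=
  (S.filter (fun s => s - g ∈ MF)).card

lemma cov1 : ∀ s : ZMod 2 × ZMod 8,
    (Finset.univ.filter (fun g : ZMod 2 × ZMod 8 => s - g ∈ MF)).card = 6 := by
  decide +kernel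

lemma cov2 : ∀ s t : ZMod 2 × ZMod 8, s ≠ t →
    (Finset.univ.filter (fun g : ZMod 2 × ZMod 8 => s - g ∈ MF ∧ t - g ∈ MF)).card = 2 := by
  decide +kernel

lemma sum1 (S : Finset (ZMod 2 × ZMod 8)) : ∑ g, cnt S g = 6 * S.card := by
  unfold cnt
  simp_rw [Finset.card_filter]
  rw [Finset.sum_comm]
  simp_rw [← Finset.card_filter, cov1]
  simp [mul_comm]

lemma sum2 (S : Finset (ZMod 2 × ZMod 8)) :
    ∑ g, cnt S g * cnt S g = 6 * S.card + 2 * (S.card * S.card - S.card) := by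
  have h1 : ∀ g, cnt S g * cnt S g = ((S ×ˢ S).filter (fun p => p.1 - g ∈ MF ∧ p.2 - g ∈ MF)).card := by
    intro g
    unfold cnt
    rw [← Finset.card_product]
    congr 1
    ext p
    simp only [Finset.mem_product, Finset.mem_filter]
    tauto
  simp_rw [h1, Finset.card_filter]
  rw [Finset.sum_comm]
  simp_rw [← Finset.card_filter]
  have h2 : (S ×ˢ S) = S.diag ∪ S.offDiag := by rw [Finset.diag_union_offDiag]
  rw [h2, Finset.sum_union (Finset.disjoint_diag_offDiag S)]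
  have h3 : ∑ p ∈ S.diag, (Finset.univ.filter (fun g : ZMod 2 × ZMod 8 => p.1 - g ∈ MF ∧ p.2 - g ∈ MF)).card
      = ∑ p ∈ S.diag, 6 := by
    apply Finset.sum_congr rfl
    intro p hp
    rw [Finset.mem_diag] at hp
    rw [← hp.2]
    simpa using cov1 p.1
  have h4 : ∑ p ∈ S.offDiag, (Finset.univ.filter (fun g : ZMod 2 × ZMod 8 => p.1 - g ∈ MF ∧ p.2 - g ∈ MF)).card
      = ∑ p ∈ S.offDiag, 2 := by
    apply Finset.sum_congr rfl
    intro p hp
    rw [Finset.mem_offDiag] at hp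
    exact cov2 p.1 p.2 hp.2.2
  rw [h3, h4, Finset.sum_const, Finset.sum_const, Finset.diag_card, Finset.offDiag_card]
  simp [mul_comm]

lemma card_four (S : Finset (ZMod 2 × ZMod 8)) (hS : S.Nonempty)
    (h : ∀ g, cnt S g = 0 ∨ cnt S g = 2) : S.card = 4 := by
  have h1 : ∑ g, cnt S g * cnt S g = 2 * ∑ g, cnt S g := by
    rw [Finset.mul_sum]
    apply Finset.sum_congr rfl
    intro g _
    rcases h g with h | h <;> simp [h]
  rw [sum1, sum2] at h1
  have h2 : 0 < S.card := hS.card_pos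
  have h3 : S.card ≤ S.card * S.card := Nat.le_mul_self _
  have h4 : S.card * S.card = 4 * S.card := by omega
  exact Nat.eq_of_mul_eq_mul_right h2 h4

/-- allowed quadruples -/
def allowed (x y z w : ZMod 2 × ZMod 8) : Bool :=
  decide (∀ g, cnt {x, y, z, w} g = 0 ∨ cnt {x, y, z, w} g = 2)

/-- Boolean form of the finite check. -/
def chk (y a c z w : ZMod 2 × ZMod 8) : Bool :=
  decide (z = (0, 0)) || decide (z = y) || decide (w = (0, 0)) || decide (w = y) ||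
    decide (z = w) || !(allowed (0, 0) y z w) || (decide (z = a) && decide (w = c)) ||
    (decide (z = c) && decide (w = a))

lemma chk1 : ∀ z w : ZMod 2 × ZMod 8, chk (0, 3) (0, 4) (1, 7) z w = true := by
  decide +kernel

lemma chk2 : ∀ z w : ZMod 2 × ZMod 8, chk (0, 7) (0, 4) (1, 3) z w = true := by
  decide +kernel

lemma fin1 (z w : ZMod 2 × ZMod 8) (h1 : z ≠ (0, 0)) (h2 : z ≠ (0, 3)) (h3 : w ≠ (0, 0))
    (h4 : w ≠ (0, 3)) (h5 : z ≠ w) (h6 : allowed (0, 0) (0, 3) z w = true) :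
    (z = (0, 4) ∧ w = (1, 7)) ∨ (z = (1, 7) ∧ w = (0, 4)) := by
  have h := chk1 z w
  simpa [chk, h1, h2, h3, h4, h5, h6] using h

lemma fin2 (z w : ZMod 2 × ZMod 8) (h1 : z ≠ (0, 0)) (h2 : z ≠ (0, 7)) (h3 : w ≠ (0, 0))
    (h4 : w ≠ (0, 7)) (h5 : z ≠ w) (h6 : allowed (0, 0) (0, 7) z w = true) :
    (z = (0, 4) ∧ w = (1, 3)) ∨ (z = (1, 3) ∧ w = (0, 4)) := by
  have h := chk2 z w
  simpa [chk, h1, h2, h3, h4, h5, h6] using h

lemma exists_four (S : Finset (ZMod 2 × ZMod 8)) (hc : S.card = 4) (x y : ZMod 2 × ZMod 8)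
    (hx : x ∈ S) (hy : y ∈ S) (hxy : x ≠ y) :
    ∃ z w, z ≠ x ∧ z ≠ y ∧ w ≠ x ∧ w ≠ y ∧ z ≠ w ∧ S = {x, y, z, w} := by
  have h1 : ((S.erase x).erase y).card = 2 := by
    rw [Finset.card_erase_of_mem, Finset.card_erase_of_mem hx, hc]
    exact Finset.mem_erase.mpr ⟨hxy.symm, hy⟩
  obtain ⟨z, w, hzw, h2⟩ := Finset.card_eq_two.mp h1
  have hz : z ∈ (S.erase x).erase y := by rw [h2]; simp
  have hw : w ∈ (S.erase x).erase y := by rw [h2]; simp
  simp only [Finset.mem_erase] at hz hw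
  refine ⟨z, w, hz.2.1, hz.1, hw.2.1, hw.1, hzw, ?_⟩
  rw [← h2, Finset.insert_erase (Finset.mem_erase.mpr ⟨hxy.symm, hy⟩), Finset.insert_erase hx]

lemma no_embed (P : Type u) (L : Type v) [Membership P L] [Configuration.ProjectivePlane P L] :
    ¬ Embeds 2 M28 P L := by
  classical
  rintro ⟨φ, hinj, harc⟩
  -- the trace of a line
  let S : L → Finset (ZMod 2 × ZMod 8) := fun l => Finset.univ.filter (fun g => φ g ∈ l)
  have hS : ∀ l x, x ∈ S l ↔ φ x ∈ l := by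
    intro l x
    simp [S]
  have hcnt : ∀ l g, cnt (S l) g = 0 ∨ cnt (S l) g = 2 := by
    intro l g
    have h1 := (harc g).2 l
    have h2 : φ '' translate M28 g ∩ {p | p ∈ l} =
        φ '' (((S l).filter (fun s => s - g ∈ MF) : Finset (ZMod 2 × ZMod 8)) : Set _) := by
      ext p
      simp only [Set.mem_inter_iff, Set.mem_image, translate, Finset.coe_filter, hS]
      constructor
      · rintro ⟨⟨x, ⟨m, hm, rfl⟩, rfl⟩, hp⟩
        refine ⟨m + g, ⟨hp, ?_⟩, rfl⟩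
        rw [M28_eq] at hm
        simpa using hm
      · rintro ⟨x, ⟨hx1, hx2⟩, rfl⟩
        refine ⟨⟨x, ⟨x - g, ?_, by abel⟩, rfl⟩, hx1⟩
        rw [M28_eq]
        exact hx2
    rw [h2, hinj.encard_image, Set.encard_coe_eq_coe_finsetCard] at h1
    unfold cnt
    rcases h1 with h1 | h1
    · left; exact_mod_cast h1
    · right; exact_mod_cast h1
  have key : ∀ l x y, x ∈ S l → y ∈ S l → x ≠ y →
      ∃ z w, z ≠ x ∧ z ≠ y ∧ w ≠ x ∧ w ≠ y ∧ z ≠ w ∧ S l = {x, y, z, w} ∧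
        allowed x y z w = true := by
    intro l x y hx hy hxy
    obtain ⟨z, w, h1, h2, h3, h4, h5, h6⟩ :=
      exists_four (S l) (card_four (S l) ⟨x, hx⟩ (hcnt l)) x y hx hy hxy
    refine ⟨z, w, h1, h2, h3, h4, h5, h6, ?_⟩
    unfold allowed
    rw [decide_eq_true_eq, ← h6]
    exact hcnt l
  have e03 : ((0, 0) : ZMod 2 × ZMod 8) ≠ (0, 3) := by decide
  have e07 : ((0, 0) : ZMod 2 × ZMod 8) ≠ (0, 7) := by decide
  have e04 : ((0, 0) : ZMod 2 × ZMod 8) ≠ (0, 4) := by decide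
  have n03 : φ (0, 0) ≠ φ (0, 3) := fun h => e03 (hinj h)
  have n07 : φ (0, 0) ≠ φ (0, 7) := fun h => e07 (hinj h)
  have n04 : φ (0, 0) ≠ φ (0, 4) := fun h => e04 (hinj h)
  -- the two lines
  obtain ⟨l1, hl1⟩ : ∃ l : L, φ (0, 0) ∈ l ∧ φ (0, 3) ∈ l :=
    ⟨Configuration.HasLines.mkLine n03, Configuration.HasLines.mkLine_ax n03⟩
  obtain ⟨l2, hl2⟩ : ∃ l : L, φ (0, 0) ∈ l ∧ φ (0, 7) ∈ l :=
    ⟨Configuration.HasLines.mkLine n07, Configuration.HasLines.mkLine_ax n07⟩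
  obtain ⟨z, w, h1, h2, h3, h4, h5, h6, h7⟩ :=
    key l1 (0, 0) (0, 3) ((hS _ _).2 hl1.1) ((hS _ _).2 hl1.2) e03
  obtain ⟨z', w', h1', h2', h3', h4', h5', h6', h7'⟩ :=
    key l2 (0, 0) (0, 7) ((hS _ _).2 hl2.1) ((hS _ _).2 hl2.2) e07
  have f1 := fin1 z w h1 h2 h3 h4 h5 h7
  have f2 := fin2 z' w' h1' h2' h3' h4' h5' h7'
  have a1 : φ (0, 4) ∈ l1 := by
    rw [← hS, h6]
    rcases f1 with ⟨rfl, rfl⟩ | ⟨rfl, rfl⟩ <;> simp
  have a2 : φ (0, 4) ∈ l2 := by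
    rw [← hS, h6']
    rcases f2 with ⟨rfl, rfl⟩ | ⟨rfl, rfl⟩ <;> simp
  have hl : l1 = l2 :=
    (Configuration.Nondegenerate.eq_or_eq hl1.1 a1 hl2.1 a2).resolve_left n04
  have a3 : ((0, 7) : ZMod 2 × ZMod 8) ∈ S l1 := by
    rw [hS, hl]; exact hl2.2
  rw [h6] at a3
  rcases f1 with ⟨rfl, rfl⟩ | ⟨rfl, rfl⟩ <;> revert a3 <;> decide

/-- Question Q1 has a negative answer. -/
theorem result :
    (¬ ∀ (b : ℕ), 1 ≤ b → ∀ (G : Type) [AddCommGroup G] (M : Set G),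
        IsHadamardDifferenceSet b M →
        ∃ (P : Type u) (L : Type v) (_ : Membership P L) (_ : Configuration.ProjectivePlane P L),
          Configuration.ProjectivePlane.order P L = 2 ^ b ∧ Embeds b M P L) ∧
    IsHadamardDifferenceSet 2 M28 ∧
    ∀ (P : Type u) (L : Type v) [Membership P L] [Configuration.ProjectivePlane P L],
      ¬ Embeds 2 M28 P L := by
  refine ⟨?_, isHDS, fun P L _ _ => no_embed P L⟩
  intro h
  obtain ⟨P, L, i1, i2, -, h3⟩ := h 2 (by norm_num) (ZMod 2 × ZMod 8) M28 isHDS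
  exact no_embed P L h3

end Pool.Agent.Results.MP_82bed6_co.NoEmbedding
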